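import Mathlib
import Pool.Agent.Helper26.TOR.T4

/-!
# MP_872606_gt: proof for the coverings of the four-torus and of other symplectic four-manifolds with `b⁻ ≤ 3`

`X` is a closed symplectic four-manifold with canonical class `K` and Euler number `e`, `V = H_2(X; ℝ)`
and `B` is the intersection form. The `C_i` are symplectic surfaces of genus `g i` and of square `≤ 0`,
which meet positively in ordinary points of any multiplicity; `t i` is the class of `C_i` (`IsArr`), `S p`
is the set of the surfaces through the point `p`. The points of `Bl` are blown up, the others are double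
points. For the weights `w i = 1 - 1 / n_i` and `z p = 1 - 1 / ν_p` the numbers `cOneSq`, `cTwo` are the Chern
numbers, divided by the degree, of the coverings which are branched with the orders `n_i` along `C_i` and
`ν_p` along the exceptional sphere over `p`.
-/

set_option autoImplicit false

open Finset

namespace Pool.Agent.Helper14.TCV

open Pool.Agent.Helper26.TOR

/-- **Main theorem.** Let `b⁻(X) ≤ 3` and `K² ≤ 3 e(X)`, for example `X` the four-torus or any bundle of
tori over a torus. Then `c_1² ≤ 3 c_2` for all coverings of `X`, with any branching orders, branched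
along symplectic surfaces of squares `C_i² ≤ 0` and genus `g_i ≥ 1 - C_i²`. If `X` is the four-torus
(`K = 0`, `e = 0`, the `C_i` are linear tori `A i : ℤ² → ℤ⁴`) and `c_1² = 3 c_2`, where every `C_i` has
positive weight and meets another one, then all the planes `H_1(C_i; ℝ)` in `ℝ⁴` are complex lines, with
the right orientation, for ONE complex structure `J` of `ℝ⁴`. -/
theorem main (V : Type) [AddCommGroup V] [Module ℝ V] (B : V →ₗ[ℝ] V →ₗ[ℝ] ℝ)
    (hB : ∀ x y, B x y = B y x) (hN : NegLE B ⊤ 3) (K : V) (e : ℝ) (he : B K K ≤ 3 * e)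
    (k m : ℕ) (S : Fin m → Finset (Fin k)) (g : Fin k → ℕ) (t : Fin k → V) (h : IsArr B K S g t)
    (hg : ∀ i, 1 - B (t i) (t i) ≤ g i) (Bl : Finset (Fin m)) (hBl : ∀ p ∉ Bl, (S p).card = 2)
    (w : Fin k → ℝ) (hw : ∀ i, 0 ≤ w i ∧ w i ≤ 1) (z : Fin m → ℝ) (c₁sq c₂ : ℝ)
    (hc₁ : c₁sq = cOneSq S (B (K + ∑ i, w i • t i) (K + ∑ i, w i • t i)) Bl w z)
    (hc₂ : c₂ = cTwo S e g Bl w z) :
    c₁sq ≤ 3 * c₂ ∧
    (K = 0 → e = 0 → 0 < k → (∀ i, 0 < w i ∧ ∃ j, j ≠ i ∧ 0 < num S i j) →
      ∀ A : Fin k → Matrix (Fin 4) (Fin 2) ℤ, (∀ i j, B (t i) (t j) = inter (A i) (A j)) →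
        c₁sq = 3 * c₂ →
          ∃ J : Matrix (Fin 4) (Fin 4) ℝ, J * J = -1 ∧
            ∀ i, ∃ c : Matrix (Fin 2) (Fin 2) ℝ, J * toR (A i) = toR (A i) * c ∧ 0 < c 1 0) := by
  have hN' : NegLE B (Submodule.span ℝ (Set.range t)) 3 := fun W _ hW => hN W le_top hW
  have h1 := main_ineq hB hN' h e Bl hBl w (fun i => (hw i).1) z
  have hcurv : 0 ≤ curv B g t w := by
    unfold curv
    refine Finset.sum_nonneg fun i _ => mul_nonneg (hw i).1 ?_
    have h2 := hg i
    have h3 := h.sq i
    nlinarith [(hw i).1, (hw i).2]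
  have hrest : 0 ≤ rest S Bl w z := Finset.sum_nonneg fun p _ => sq_nonneg _
  have h33 : ((3 : ℝ) - ((3 : ℕ) : ℝ)) / 4 * mass S Bl w = 0 := by norm_num
  rw [h33, ← hc₁, ← hc₂] at h1
  refine ⟨by linarith, fun hK he0 hk hn2 A hA heq => ?_⟩
  have heq' : cOneSq S (B (K + ∑ i, w i • t i) (K + ∑ i, w i • t i)) Bl w z + (3 * e - B K K) +
      curv B g t w + rest S Bl w z + (3 - ((3 : ℕ) : ℝ)) / 4 * mass S Bl w =
        3 * cTwo S e g Bl w z := by
    rw [h33, ← hc₁, ← hc₂]
    have h5 : B K K = 0 := by rw [hK]; simp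
    rw [he0, h5] at h1 ⊢
    linarith
  have h6 := eq_index hB h e Bl hBl w z heq'
  refine T4_eq S A (fun i j hij => ?_) Bl hBl w (fun i => (hn2 i).1) hk (fun i => (hn2 i).2) (by
    push_cast at h6
    exact h6)
  have h7 := h.inter i j hij
  rw [hA i j] at h7
  exact_mod_cast h7

end Pool.Agent.Helper14.TCV
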