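import Pool.Agent.Helper14.TCV.Main

/-! The intersection number of two linear tori in the four-torus as the determinant of `(A | A')`. -/

set_option autoImplicit false

namespace Pool.Agent.Helper14.TCV

theorem det_append (A A' : Matrix (Fin 4) (Fin 2) ℤ) :
    Matrix.det (n := Fin 4) (fun i => Fin.append (A i) (A' i)) =
      Pool.Agent.Helper26.TOR.inter A A' := by
  unfold Pool.Agent.Helper26.TOR.inter
  congr 1
  ext i j
  fin_cases i <;> fin_cases j <;> rfl

end Pool.Agent.Helper14.TCV
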